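import Pool.Agent.Helper52.TjFinal

open Filter Topology ZeroAtInfty

namespace Pool.Agent.Results.MP_67b439_an.TsirelsonJT

open Pool.Agent.Helper52.Tj

/-- `c_0` does not coarsely embed into the James tree space over the unit vector basis of `T*`.
Coordinates are numbered from `s`, so `s = 0` and `s = 1` are the two usual conventions. -/
theorem result (s : ℕ) :
    (∃! N, IsTsirelsonNorm s N) ∧
    ∀ N, IsTsirelsonNorm s N →
      ∀ o : List Bool ≃ ℕ, (∀ α β, α <+: β → α ≠ β → o α < o β) →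
        (∃ (Y : Type) (_ : NormedAddCommGroup Y) (_ : NormedSpace ℝ Y)
          (ι : (List Bool →₀ ℝ) →ₗ[ℝ] Y), IsJamesTree (dualNorm N) o Y ι) ∧
        ∀ (Y : Type*) [NormedAddCommGroup Y] [NormedSpace ℝ Y]
          (ι : (List Bool →₀ ℝ) →ₗ[ℝ] Y), IsJamesTree (dualNorm N) o Y ι →
            ¬ ∃ φ : C₀(ℕ, ℝ) → Y, IsCoarseEmbedding φ :=
  ⟨exists_unique_tsirelson s, fun N hN o ho =>
    ⟨exists_jamesTree o ho (dual_good hN), fun Y _ _ ι hY => tsirelson_answer s N hN o ho Y ι hY⟩⟩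

end Pool.Agent.Results.MP_67b439_an.TsirelsonJT
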