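import Pool.Agent.Helper52.TjGen

open Filter Topology ZeroAtInfty

namespace Pool.Agent.Results.MP_67b439_an.UnconditionalJT

open Pool.Agent.Helper52.Tj

/-- `c_0` does not coarsely embed into the James tree space over a normalized unconditional
boundedly complete basis that is asymptotically `c_0`, or in which averages of far disjoint
vectors of the unit ball are small. -/
theorem result (nE : (ℕ →₀ ℝ) → ℝ) (h : IsUnconditionalBCBasis nE)
    (hAB : IsAsymptoticallyC0 nE ∨ HasSmallDisjointAverages nE)
    (o : List Bool ≃ ℕ) (ho : ∀ α β, α <+: β → α ≠ β → o α < o β)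
    (Y : Type*) [NormedAddCommGroup Y] [NormedSpace ℝ Y] (ι : (List Bool →₀ ℝ) →ₗ[ℝ] Y)
    (hY : IsJamesTree nE o Y ι) : ¬ ∃ φ : C₀(ℕ, ℝ) → Y, IsCoarseEmbedding φ :=
  general_answer nE h hAB o ho Y ι hY

end Pool.Agent.Results.MP_67b439_an.UnconditionalJT
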